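import Pool.Agent.Lib.MP_b4f117_lc.AT.Final

/-!
# No AC⁰ reduction from `p-WSAT(Γ_{t,d})` to `p-WSAT(Γ_{t,d'})`

For `t ≥ 2`, `d ≥ 2` and a real number `γ` with `γ * d' < d` there are no circuits of constant depth
and size `(2 ^ k * n) ^ O(1)` which reduce `p-WSAT(Γ_{t,d})` to `p-WSAT(Γ_{t,d'})` with a new
parameter `O((k + log n) ^ γ)`. For `γ = 1`, `d' = 1`: for all `t ≥ 2` and `d ≥ 2` there is no
ept-reduction in AC⁰ from `p-WSAT(Γ_{t,d})` to `p-WSAT(Γ_{t,1})`.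

The definitions are in `Pool.Agent.Lib.MP_b4f117_lc.AT.Defs` and `Pool.Agent.Lib.MP_b4f117_lc.AC.Defs`.
-/

namespace Pool.Agent.Results.MP_b4f117_lc.NoAC0ReductionAllLevels

open Pool.Agent.Lib.MP_b4f117_lc.AT

theorem result (t d d' : ℕ) (γ : ℝ) (ht : 2 ≤ t) (hd : 2 ≤ d) (h : γ * (d' : ℝ) < (d : ℝ)) :
    ¬ AC0RedT (t - 1) γ d d' :=
  not_ac0RedT (t - 1) d d' γ (by omega) hd h

end Pool.Agent.Results.MP_b4f117_lc.NoAC0ReductionAllLevels
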