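import Pool.Agent.Lib.MP_b4f117_lc.Main

/-!
# Reducing `p-WSAT(Γ_{t,d})` to `p-WSAT(Γ_{t,1})`

For all `t ≥ 2` and `d ≥ 1` there is a reduction from `p-WSAT(Γ_{t,d})` to `p-WSAT(Γ_{t,1})`,
computable in time `2 ^ O(k) * n ^ O(1)`, whose new parameter `k'` satisfies
`k' * (k + log n) ^ d ≤ C * (k * log m + k + log n) ^ d`, that is
`k' = O((1 + k * log m / (k + log n)) ^ d)`, where `n` is the size and `m` the number of variables
of the instance. So it is an ept-reduction on the instances with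
`(k * log m) ^ d ≤ c * (k + log n) ^ (d + 1)`, in particular on those with `k ^ d ≤ c * log n` or
`(log n) ^ d ≤ c * k`.
-/

namespace Pool.Agent.Results.MP_b4f117_lc.OutsideTheWindow

open Pool.Agent.Lib.MP_b4f117_lc

theorem result (t d : ℕ) (ht : 2 ≤ t) (hd : 1 ≤ d) :
    (∃ (R : (WSat t d).Inst → (WSat t 1).Inst) (M : Turing.TM2ComputableAux Bool Bool) (C : ℕ),
      ∀ x, ((WSat t d).Yes x ↔ (WSat t 1).Yes (R x)) ∧
        Outputs M ((WSat t d).code x) ((WSat t 1).code (R x))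
          (C * 2 ^ (C * (WSat t d).param x) * size x ^ C) ∧
        (WSat t 1).param (R x) * ((WSat t d).param x + Nat.log 2 (size x)) ^ d ≤
          C * ((WSat t d).param x * Nat.log 2 (numVars t x.1.1) + (WSat t d).param x +
            Nat.log 2 (size x)) ^ d) ∧
    (∀ c : ℕ, EptReducible (restrict (WSat t d)
      {x | ((WSat t d).param x * Nat.log 2 (numVars t x.1.1)) ^ d ≤
        c * ((WSat t d).param x + Nat.log 2 (size x)) ^ (d + 1)}) (WSat t 1)) ∧
    (∀ c : ℕ, EptReducible (restrict (WSat t d)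
      {x | (WSat t d).param x ^ d ≤ c * Nat.log 2 (size x) ∨
        Nat.log 2 (size x) ^ d ≤ c * (WSat t d).param x}) (WSat t 1)) := by
  obtain ⟨s, rfl⟩ : ∃ s, t = s + 2 := ⟨t - 2, by omega⟩
  refine ⟨?_, fun c => eptReducible_of_small hd c _ (fun x hx => hx),
    fun c => eptReducible_of_small hd c _ (fun x hx => small_of_outside c x hx)⟩
  obtain ⟨M, C, hM⟩ := R_time d s
  refine ⟨R d s, M, C + 3 ^ d, fun x => ⟨R_correct hd s x, ?_, ?_⟩⟩
  · obtain ⟨h⟩ := hM x
    refine ⟨⟨h.toEvalsTo, h.steps_le_m.trans ?_⟩⟩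
    have e1 : 1 ≤ size x := by rw [size_eq]; exact Pool.Agent.PolyTime.sz_pos _
    exact Nat.mul_le_mul (Nat.mul_le_mul (Nat.le_add_right _ _) (Nat.pow_le_pow_right (by norm_num)
      (Nat.mul_le_mul_right _ (Nat.le_add_right _ _))))
      (Nat.pow_le_pow_right e1 (Nat.le_add_right _ _))
  · exact (R_param d s x).trans (Nat.mul_le_mul_right _ (Nat.le_add_left _ _))

end Pool.Agent.Results.MP_b4f117_lc.OutsideTheWindow
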